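import Mathlib
import Pool.Agent.H37.KR.Defs

/-!
# Kalai-Sarkaria with an intersection form, part D

Specialization of the generic statement: the list of generators of `W472.KS.Spec` gets the extra
constant monomials of `J`.
-/

set_option autoImplicit false

namespace Pool.Agent.H86.KR

open Finset MvPolynomial Pool.Agent.W555.KS Pool.Agent.Y131.KS
open Pool.Agent.W386.KS Pool.Agent.W472.KS Pool.Agent.H37.KR

/-- the generators over a commutative ring, with the monomials of `J` -/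
noncomputable def gensJ {R : Type} [CommRing R] (n d r : ℕ) (L : Finset (Finset (Fin n)))
    (J : Finset (Fin n →₀ ℕ)) (c : Fin (d + 1) × Fin n → R) :
    GI n d L ⊕ {m : Fin n →₀ ℕ // m ∈ J} → MvPolynomial (Fin n) R
  | Sum.inl j => gens n d r L c j
  | Sum.inr m => monomial m.1 (1 : R)

/-- the degrees of the generators -/
def degsJ (n d r : ℕ) (L : Finset (Finset (Fin n))) (J : Finset (Fin n →₀ ℕ)) :
    GI n d L ⊕ {m : Fin n →₀ ℕ // m ∈ J} → ℕ
  | Sum.inl j => degs n d r L j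
  | Sum.inr _ => r

theorem gensJ_homog {R : Type} [CommRing R] (n d r : ℕ) (L : Finset (Finset (Fin n)))
    (J : Finset (Fin n →₀ ℕ)) (hJ : ∀ m ∈ J, m.degree = r)
    (c : Fin (d + 1) × Fin n → R) (j : GI n d L ⊕ {m : Fin n →₀ ℕ // m ∈ J}) :
    (gensJ n d r L J c j).IsHomogeneous (degsJ n d r L J j) := by
  rcases j with j | m
  · exact gens_homog n d r L c j
  · exact isHomogeneous_monomial _ (hJ m.1 m.2)

theorem gensJ_map {R S : Type} [CommRing R] [CommRing S] (f : R →+* S) (n d r : ℕ)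
    (L : Finset (Finset (Fin n))) (J : Finset (Fin n →₀ ℕ)) (c : Fin (d + 1) × Fin n → R)
    (j : GI n d L ⊕ {m : Fin n →₀ ℕ // m ∈ J}) :
    MvPolynomial.map f (gensJ n d r L J c j) = gensJ n d r L J (fun x => f (c x)) j := by
  rcases j with j | m
  · exact gens_map f n d r L c j
  · simp [gensJ]

/-- the ideal generated by the generators -/
theorem span_gensJ {k : Type} [Field k] (n d r : ℕ) (L : Finset (Finset (Fin n)))
    (J : Finset (Fin n →₀ ℕ)) (c : Fin (d + 1) × Fin n → k) :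
    Ideal.span (Set.range (gensJ n d r L J c)) =
      srI k L ⊔ Ideal.span (Set.range (fun i : Fin d => lf (fun v => c (i.castSucc, v)))) ⊔
          Ideal.span {lf (fun v => c (Fin.last d, v)) ^ (2 * r - d)} ⊔
          Ideal.span ((fun m => monomial m (1 : k)) '' (J : Set (Fin n →₀ ℕ))) := by
  rw [← span_gens, ← Ideal.span_union]
  congr 1
  ext p
  constructor
  · rintro ⟨j | m, rfl⟩
    · exact Or.inl ⟨j, rfl⟩
    · exact Or.inr ⟨m.1, Finset.mem_coe.2 m.2, rfl⟩
  · rintro (⟨j, rfl⟩ | ⟨m, hm, rfl⟩)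
    · exact ⟨Sum.inl j, rfl⟩
    · exact ⟨Sum.inr ⟨m, Finset.mem_coe.1 hm⟩, rfl⟩

/-- **Part D.** -/
theorem stD : StD := by
  intro n d r L J hJr hdr hgen
  classical
  set R := MvPolynomial (Fin (d + 1) × Fin n) ℤ with hR
  have : Finite {μ : Fin n →₀ ℕ // μ.degree = r} := (Finsupp.finite_of_degree_eq r).to_subtype
  let I1 : Fintype {μ : Fin n →₀ ℕ // μ.degree = r} := Fintype.ofFinite _
  have hfin : Finite {x : (GI n d L ⊕ {m : Fin n →₀ ℕ // m ∈ J}) × (Fin n →₀ ℕ) //
      x.2.degree + degsJ n d r L J x.1 = r} := by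
    refine Set.Finite.to_subtype (s := {x : (GI n d L ⊕ {m : Fin n →₀ ℕ // m ∈ J}) × (Fin n →₀ ℕ) |
      x.2.degree + degsJ n d r L J x.1 = r}) ?_
    refine Set.Finite.subset ((Set.finite_univ (α := GI n d L ⊕ {m : Fin n →₀ ℕ // m ∈ J})).prod
      (Finsupp.finite_of_degree_le (σ := Fin n) r)) ?_
    rintro ⟨j, ν⟩ h
    refine ⟨Set.mem_univ _, ?_⟩
    simp only [Set.mem_setOf_eq] at h ⊢
    omega
  let I2 : Fintype {x : (GI n d L ⊕ {m : Fin n →₀ ℕ // m ∈ J}) × (Fin n →₀ ℕ) //
      x.2.degree + degsJ n d r L J x.1 = r} := Fintype.ofFinite _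
  let A : {x : (GI n d L ⊕ {m : Fin n →₀ ℕ // m ∈ J}) × (Fin n →₀ ℕ) //
      x.2.degree + degsJ n d r L J x.1 = r} →
      {μ : Fin n →₀ ℕ // μ.degree = r} → MvPolynomial (Fin (d + 1) × Fin n) ℤ :=
    fun x μ => coeff μ.1 (monomial x.1.2 (1 : MvPolynomial (Fin (d + 1) × Fin n) ℤ) *
      gensJ n d r L J (fun y => (X y : MvPolynomial (Fin (d + 1) × Fin n) ℤ)) x.1.1)
  -- change of coefficients of the rows
  have hrow : ∀ (k : Type) [Field k] (f : MvPolynomial (Fin (d + 1) × Fin n) ℤ →+* k)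
      (x : {x : (GI n d L ⊕ {m : Fin n →₀ ℕ // m ∈ J}) × (Fin n →₀ ℕ) //
        x.2.degree + degsJ n d r L J x.1 = r}),
      (fun μ => f (A x μ)) = coeffs k n r (monomial x.1.2 (1 : k) *
        gensJ n d r L J (fun y => f (X y)) x.1.1) := by
    intro k _ f x
    funext μ
    rw [coeffs_apply]
    show f (coeff μ.1 _) = _
    rw [← coeff_map, map_mul, gensJ_map, map_monomial, map_one]
  obtain ⟨F, hF0, hF⟩ := span2 (Fin (d + 1) × Fin n)
    {x : (GI n d L ⊕ {m : Fin n →₀ ℕ // m ∈ J}) × (Fin n →₀ ℕ) //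
      x.2.degree + degsJ n d r L J x.1 = r}
    {μ : Fin n →₀ ℕ // μ.degree = r} A (by
      intro w
      obtain ⟨p, hp, rfl⟩ := coeffs_surj (Kf (d + 1) n) n r w
      let f : MvPolynomial (Fin (d + 1) × Fin n) ℤ →+* Kf (d + 1) n :=
        (algebraMap (MvPolynomial (Fin (d + 1) × Fin n) (ZMod 2)) (Kf (d + 1) n)).comp
          (MvPolynomial.map (Int.castRingHom (ZMod 2)))
      have hfX : (fun y => f (X y)) = fun y : Fin (d + 1) × Fin n => gen (d + 1) n y.1 y.2 := by
        funext y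
        simp [f, gen]
      have h1 := hgen p hp
      have h2 : p ∈ Ideal.span (Set.range (gensJ n d r L J (fun y => f (X y)))) := by
        rw [hfX, span_gensJ]
        exact h1
      have h3 := mem_span_of_homog _ _ (gensJ_homog n d r L J hJr (fun y => f (X y))) r p hp h2
      have h4 := Submodule.mem_map_of_mem (f := coeffs (Kf (d + 1) n) n r) h3
      rw [Submodule.map_span, ← Set.range_comp] at h4
      have h5 : (fun i : {x : (GI n d L ⊕ {m : Fin n →₀ ℕ // m ∈ J}) × (Fin n →₀ ℕ) //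
            x.2.degree + degsJ n d r L J x.1 = r} =>
          fun j : {μ : Fin n →₀ ℕ // μ.degree = r} =>
          algebraMap (MvPolynomial (Fin (d + 1) × Fin n) (ZMod 2)) (Kf (d + 1) n)
          (MvPolynomial.map (Int.castRingHom (ZMod 2)) (A i j))) =
          (coeffs (Kf (d + 1) n) n r ∘ fun x => monomial x.1.2 (1 : Kf (d + 1) n) *
            gensJ n d r L J (fun y => f (X y)) x.1.1) := by
        funext x
        exact hrow (Kf (d + 1) n) f x
      rw [h5]
      exact h4)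
  refine ⟨F, hF0, ?_⟩
  intro k _ c hc p hp
  have h1 := hF k c hc (coeffs k n r p)
  have h2 : (fun i : {x : (GI n d L ⊕ {m : Fin n →₀ ℕ // m ∈ J}) × (Fin n →₀ ℕ) //
        x.2.degree + degsJ n d r L J x.1 = r} =>
      fun j : {μ : Fin n →₀ ℕ // μ.degree = r} => aeval c (A i j)) =
      (coeffs k n r ∘ fun x => monomial x.1.2 (1 : k) * gensJ n d r L J c x.1.1) := by
    funext x
    have := hrow k (aeval c : MvPolynomial (Fin (d + 1) × Fin n) ℤ →ₐ[ℤ] k).toRingHom x
    simpa using this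
  rw [h2, Set.range_comp, ← Submodule.map_span] at h1
  obtain ⟨q, hq, hqp⟩ := h1
  have h3 : q.IsHomogeneous r ∧ q ∈ Ideal.span (Set.range (gensJ n d r L J c)) := by
    refine Submodule.span_induction (p := fun q _ => q.IsHomogeneous r ∧
      q ∈ Ideal.span (Set.range (gensJ n d r L J c))) ?_ ?_ ?_ ?_ hq
    · rintro _ ⟨x, rfl⟩
      refine ⟨?_, ?_⟩
      · have := (isHomogeneous_monomial (σ := Fin n) (d := x.1.2) (1 : k) rfl).mul
          (gensJ_homog n d r L J hJr c x.1.1)
        rw [x.2] at this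
        exact this
      · exact Ideal.mul_mem_left _ _ (Ideal.subset_span ⟨_, rfl⟩)
    · exact ⟨isHomogeneous_zero _ _ _, Ideal.zero_mem _⟩
    · intro x y _ _ hx hy
      exact ⟨hx.1.add hy.1, Ideal.add_mem _ hx.2 hy.2⟩
    · intro a x _ hx
      refine ⟨(homogeneousSubmodule (Fin n) k r).smul_mem a hx.1, ?_⟩
      rw [MvPolynomial.smul_eq_C_mul]
      exact Ideal.mul_mem_left _ _ hx.2
  have h4 : q = p := coeffs_inj k n r q p h3.1 hp hqp
  rw [← h4, ← span_gensJ]
  exact h3.2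

end Pool.Agent.H86.KR
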